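import Pool.Agent.helper64.PB.SpecA

set_option autoImplicit false

namespace Pool.Agent.PB

theorem APP : APP_stmt := by
  intro G n l l' h h'
  induction h with
  | nil => exact h'
  | step l g a _ hg ha ih =>
    exact Prog.step (l ++ l') g a ih hg fun i =>
      (ha i).imp (fun hi => List.mem_append_left l' hi) (fun hi => hi)

end Pool.Agent.PB
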