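import Pool.Agent.helper64.PB.SpecF

set_option autoImplicit false

namespace Pool.Agent.PB

open Finset Polynomial

/-- one application of the gate lemma, with error sets as finite sets -/
theorem APX_stp (hSTP : STP_stmt) {K : Type} [Field K] [Fintype K] [DecidableEq K] (L G t : ℕ)
    (ε : K ≃ Fin (16 * t) × Fin L) (𝓑 : Finset (Finset (K × K))) (hL : 1 ≤ L) (ht : 1 ≤ t)
    (hB : ∀ B ∈ 𝓑, PF B ∧ B.card ≤ 2 * t) :
    ∃ 𝓜 : Finset (Finset (K × K)), Small t L 𝓜 ∧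
      ∃ (F : Finset (Fin (2 * t + 1) → K)) (F' : Finset (Fin G → (K × Fin (16 * t) → Fin L))),
        F.card * (3 * 4 ^ t) ≤ (Fintype.card K) ^ (2 * t + 1) ∧
        F'.card * 2 ^ G ≤ ((Fintype.card K) ^ 2 + 1) ^ (2 * t) *
          Fintype.card (Fin G → (K × Fin (16 * t) → Fin L)) ∧
        (∀ a, a ∉ F → Acc 𝓑 (gr a) → Acc 𝓜 (gr a)) ∧
        ∀ ω, ω ∉ F' → Acc 𝓜 (Ng ε ω) → Acc 𝓑 (Ng ε ω) := by
  classical
  obtain ⟨𝓜, hM, h1, h2⟩ := hSTP K L G t ε 𝓑 hL ht hB
  refine ⟨𝓜, hM, univ.filter (fun a => Acc 𝓑 (gr a) ∧ ¬ Acc 𝓜 (gr a)),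
    univ.filter (fun ω => Acc 𝓜 (Ng ε ω) ∧ ¬ Acc 𝓑 (Ng ε ω)), ?_, ?_, ?_, ?_⟩
  · rw [Nat.card_eq_fintype_card, Fintype.card_subtype] at h2
    exact h2
  · rw [Nat.card_eq_fintype_card, Fintype.card_subtype] at h1
    exact h1
  · intro a ha h
    by_contra h'
    exact ha (by simp only [mem_filter, mem_univ, true_and]; exact ⟨h, h'⟩)
  · intro ω hω h
    by_contra h'
    exact hω (by simp only [mem_filter, mem_univ, true_and]; exact ⟨h, h'⟩)

/-- `𝓜` approximates `u` outside the error sets -/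
def APX_R {K : Type} [Field K] [Fintype K] [DecidableEq K] (L G t N : ℕ) (ε : K ≃ Fin (16 * t) × Fin L)
    (ρ : K × K ≃ Fin N) (E : Finset (Fin (2 * t + 1) → K)) (E' : Finset (Fin G → (K × Fin (16 * t) → Fin L)))
    (u : BF N) : Prop :=
  ∃ 𝓜 : Finset (Finset (K × K)), Small t L 𝓜 ∧
    (∀ a, a ∉ E → u (fun i => gr a (ρ.symm i)) = true → Acc 𝓜 (gr a)) ∧
    ∀ ω, ω ∉ E' → Acc 𝓜 (Ng ε ω) → u (fun i => Ng ε ω (ρ.symm i)) = true

theorem APX_mono {K : Type} [Field K] [Fintype K] [DecidableEq K] {L G t N : ℕ} {ε : K ≃ Fin (16 * t) × Fin L}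
    {ρ : K × K ≃ Fin N} {E E₁ : Finset (Fin (2 * t + 1) → K)}
    {E' E₁' : Finset (Fin G → (K × Fin (16 * t) → Fin L))} {u : BF N} (h : E ⊆ E₁) (h' : E' ⊆ E₁')
    (hu : APX_R L G t N ε ρ E E' u) : APX_R L G t N ε ρ E₁ E₁' u := by
  obtain ⟨𝓜, hM, h1, h2⟩ := hu
  exact ⟨𝓜, hM, fun a ha => h1 a fun hh => ha (h hh), fun ω hω => h2 ω fun hh => hω (h' hh)⟩

/-- a family with at most one set -/
theorem APX_one {K : Type} [Field K] [DecidableEq K] {t L : ℕ} (hL : 1 ≤ L) (ht : 1 ≤ t)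
    (𝓜 : Finset (Finset (K × K))) (hc : 𝓜.card ≤ 1) (h : ∀ B ∈ 𝓜, PF B ∧ B.card ≤ t) : Small t L 𝓜 := by
  refine ⟨h, fun j => ?_⟩
  calc (𝓜.filter fun B => B.card = j).card ≤ 𝓜.card := card_le_card (filter_subset _ _)
    _ ≤ 1 := hc
    _ ≤ (4 * t * L) ^ j := Nat.one_le_pow _ _ (by positivity)

theorem APX_var {K : Type} [Field K] [Fintype K] [DecidableEq K] {L G t N : ℕ} (ε : K ≃ Fin (16 * t) × Fin L)
    (ρ : K × K ≃ Fin N) (E : Finset (Fin (2 * t + 1) → K)) (E' : Finset (Fin G → (K × Fin (16 * t) → Fin L)))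
    (hL : 1 ≤ L) (ht : 1 ≤ t) (j : Fin N) : APX_R L G t N ε ρ E E' (fun x => x j) := by
  refine ⟨{{ρ.symm j}}, APX_one hL ht _ (by simp) ?_, ?_, ?_⟩
  · intro B hB
    rw [mem_singleton] at hB
    subst hB
    refine ⟨?_, by simpa using ht⟩
    intro z hz z' hz' _
    rw [mem_singleton] at hz hz'
    rw [hz, hz']
  · intro a _ h
    refine ⟨{ρ.symm j}, mem_singleton_self _, fun z hz => ?_⟩
    rw [mem_singleton] at hz
    rw [hz]
    exact h
  · rintro ω _ ⟨B, hB, h⟩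
    rw [mem_singleton] at hB
    subst hB
    exact h _ (mem_singleton_self _)

/-- the points of a graph lie in different columns -/
theorem APX_PF {K : Type} [Field K] [DecidableEq K] {c : ℕ} (a : Fin (c + 1) → K) (B : Finset (K × K))
    (h : ∀ z ∈ B, gr a z = true) : PF B := by
  intro z hz z' hz' hzz
  have h1 := h z hz
  have h2 := h z' hz'
  unfold gr at h1 h2
  rw [decide_eq_true_eq] at h1 h2
  exact Prod.ext hzz (by rw [h1, h2, hzz])

/-- one gate -/
theorem APX_gate (hSTP : STP_stmt) {K : Type} [Field K] [Fintype K] [DecidableEq K] {L G t N : ℕ}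
    (ε : K ≃ Fin (16 * t) × Fin L) (ρ : K × K ≃ Fin N) (E : Finset (Fin (2 * t + 1) → K))
    (E' : Finset (Fin G → (K × Fin (16 * t) → Fin L))) (hL : 1 ≤ L) (ht : 1 ≤ t)
    (g : Gate) (a : Fin g.1 → BF N) (hg : g ∈ mon) (ha : ∀ i, APX_R L G t N ε ρ E E' (a i)) :
    ∃ (F : Finset (Fin (2 * t + 1) → K)) (F' : Finset (Fin G → (K × Fin (16 * t) → Fin L))),
        F.card * (3 * 4 ^ t) ≤ (Fintype.card K) ^ (2 * t + 1) ∧
        F'.card * 2 ^ G ≤ ((Fintype.card K) ^ 2 + 1) ^ (2 * t) *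
          Fintype.card (Fin G → (K × Fin (16 * t) → Fin L)) ∧
        APX_R L G t N ε ρ (E ∪ F) (E' ∪ F') (fun x => g.2 fun i => a i x) := by
  have h4 : g = gConst false ∨ g = gConst true ∨ g = gAnd ∨ g = gOr := by
    simpa [mon] using hg
  rcases h4 with h | h | h | h
  · subst h
    refine ⟨∅, ∅, by simp, by simp, ∅, APX_one hL ht _ (by simp) (by simp), ?_, ?_⟩
    · intro b _ hb
      exact absurd hb (by simp [gConst])
    · rintro ω _ ⟨B, hB, _⟩
      simp at hB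
  · subst h
    refine ⟨∅, ∅, by simp, by simp, {∅}, APX_one hL ht _ (by simp) ?_, ?_, ?_⟩
    · intro B hB
      rw [mem_singleton] at hB
      subst hB
      exact ⟨fun z hz => absurd hz (by simp), by simp⟩
    · intro b _ _
      exact ⟨∅, mem_singleton_self _, fun z hz => absurd hz (by simp)⟩
    · rintro ω _ _
      rfl
  · subst h
    obtain ⟨M0, hM0, h01, h02⟩ := ha (0 : Fin 2)
    obtain ⟨M1, hM1, h11, h12⟩ := ha (1 : Fin 2)
    have hB : ∀ B ∈ ((M0 ×ˢ M1).image fun p => p.1 ∪ p.2).filter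
        (fun B => ∀ z ∈ B, ∀ z' ∈ B, z.1 = z'.1 → z = z'), PF B ∧ B.card ≤ 2 * t := by
      intro B hB
      rw [mem_filter, mem_image] at hB
      obtain ⟨⟨⟨p, p'⟩, hp, rfl⟩, hPF⟩ := hB
      rw [mem_product] at hp
      refine ⟨hPF, (card_union_le _ _).trans ?_⟩
      have e0 := (hM0.1 p hp.1).2
      have e1 := (hM1.1 p' hp.2).2
      simp only
      omega
    obtain ⟨M, hM, F, F', hF, hF', h1, h2⟩ := APX_stp hSTP L G t ε _ hL ht hB
    refine ⟨F, F', hF, hF', M, hM, ?_, ?_⟩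
    · intro b hb hub
      rw [mem_union, not_or] at hb
      have hub' : (a (0 : Fin 2) (fun i => gr b (ρ.symm i)) && a (1 : Fin 2) (fun i => gr b (ρ.symm i))) = true := hub
      rw [Bool.and_eq_true] at hub'
      obtain ⟨B0, hB0, hB0'⟩ := h01 b hb.1 hub'.1
      obtain ⟨B1, hB1, hB1'⟩ := h11 b hb.1 hub'.2
      refine h1 b hb.2 ⟨B0 ∪ B1, ?_, ?_⟩
      · rw [mem_filter, mem_image]
        refine ⟨⟨(B0, B1), mem_product.2 ⟨hB0, hB1⟩, rfl⟩, ?_⟩
        exact APX_PF b (B0 ∪ B1) fun z hz => (mem_union.1 hz).elim (hB0' z) (hB1' z)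
      · exact fun z hz => (mem_union.1 hz).elim (hB0' z) (hB1' z)
    · intro ω hω hacc
      rw [mem_union, not_or] at hω
      obtain ⟨B, hB, hB'⟩ := h2 ω hω.2 hacc
      rw [mem_filter, mem_image] at hB
      obtain ⟨⟨⟨p, p'⟩, hp, rfl⟩, _⟩ := hB
      rw [mem_product] at hp
      have e0 : a (0 : Fin 2) (fun i => Ng ε ω (ρ.symm i)) = true :=
        h02 ω hω.1 ⟨p, hp.1, fun z hz => hB' z (mem_union_left _ hz)⟩
      have e1 : a (1 : Fin 2) (fun i => Ng ε ω (ρ.symm i)) = true :=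
        h12 ω hω.1 ⟨p', hp.2, fun z hz => hB' z (mem_union_right _ hz)⟩
      show (a (0 : Fin 2) (fun i => Ng ε ω (ρ.symm i)) && a (1 : Fin 2) (fun i => Ng ε ω (ρ.symm i))) = true
      rw [e0, e1]
      rfl
  · subst h
    obtain ⟨M0, hM0, h01, h02⟩ := ha (0 : Fin 2)
    obtain ⟨M1, hM1, h11, h12⟩ := ha (1 : Fin 2)
    have hB : ∀ B ∈ M0 ∪ M1, PF B ∧ B.card ≤ 2 * t := by
      intro B hB
      rcases mem_union.1 hB with h | h
      · exact ⟨(hM0.1 B h).1, (hM0.1 B h).2.trans (by omega)⟩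
      · exact ⟨(hM1.1 B h).1, (hM1.1 B h).2.trans (by omega)⟩
    obtain ⟨M, hM, F, F', hF, hF', h1, h2⟩ := APX_stp hSTP L G t ε _ hL ht hB
    refine ⟨F, F', hF, hF', M, hM, ?_, ?_⟩
    · intro b hb hub
      rw [mem_union, not_or] at hb
      have hub' : (a (0 : Fin 2) (fun i => gr b (ρ.symm i)) || a (1 : Fin 2) (fun i => gr b (ρ.symm i))) = true := hub
      rw [Bool.or_eq_true] at hub'
      rcases hub' with hu | hu
      · obtain ⟨B0, hB0, hB0'⟩ := h01 b hb.1 hu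
        exact h1 b hb.2 ⟨B0, mem_union_left _ hB0, hB0'⟩
      · obtain ⟨B0, hB0, hB0'⟩ := h11 b hb.1 hu
        exact h1 b hb.2 ⟨B0, mem_union_right _ hB0, hB0'⟩
    · intro ω hω hacc
      rw [mem_union, not_or] at hω
      obtain ⟨B, hB, hB'⟩ := h2 ω hω.2 hacc
      show (a (0 : Fin 2) (fun i => Ng ε ω (ρ.symm i)) || a (1 : Fin 2) (fun i => Ng ε ω (ρ.symm i))) = true
      rw [Bool.or_eq_true]
      rcases mem_union.1 hB with h | h
      · exact Or.inl (h02 ω hω.1 ⟨B, h, hB'⟩)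
      · exact Or.inr (h12 ω hω.1 ⟨B, h, hB'⟩)

theorem APX (hSTP : STP_stmt) : APX_stmt := by
  intro K _ _ _ L G t N ε ρ l hL ht hl
  have key : ∃ (E : Finset (Fin (2 * t + 1) → K)) (E' : Finset (Fin G → (K × Fin (16 * t) → Fin L))),
      E.card * (3 * 4 ^ t) ≤ l.length * (Fintype.card K) ^ (2 * t + 1) ∧
      E'.card * 2 ^ G ≤ l.length * (((Fintype.card K) ^ 2 + 1) ^ (2 * t) *
        Fintype.card (Fin G → (K × Fin (16 * t) → Fin L))) ∧
      ∀ u : BF N, Av l u → APX_R L G t N ε ρ E E' u := by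
    induction hl with
    | nil =>
      refine ⟨∅, ∅, by simp, by simp, fun u hu => ?_⟩
      rcases hu with hu | ⟨j, hj⟩
      · exact absurd hu (by simp)
      · rw [hj]
        exact APX_var ε ρ _ _ hL ht j
    | step l g a _ hg ha ih =>
      obtain ⟨E, E', hE, hE', hu⟩ := ih
      obtain ⟨F, F', hF, hF', hR⟩ := APX_gate hSTP ε ρ E E' hL ht g a hg fun i => hu (a i) (ha i)
      refine ⟨E ∪ F, E' ∪ F', ?_, ?_, ?_⟩
      · calc (E ∪ F).card * (3 * 4 ^ t) ≤ (E.card + F.card) * (3 * 4 ^ t) :=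
            Nat.mul_le_mul_right _ (card_union_le _ _)
          _ = E.card * (3 * 4 ^ t) + F.card * (3 * 4 ^ t) := by ring
          _ ≤ l.length * (Fintype.card K) ^ (2 * t + 1) + (Fintype.card K) ^ (2 * t + 1) :=
            Nat.add_le_add hE hF
          _ = _ := by rw [List.length_cons]; ring
      · calc (E' ∪ F').card * 2 ^ G ≤ (E'.card + F'.card) * 2 ^ G :=
            Nat.mul_le_mul_right _ (card_union_le _ _)
          _ = E'.card * 2 ^ G + F'.card * 2 ^ G := by ring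
          _ ≤ l.length * (((Fintype.card K) ^ 2 + 1) ^ (2 * t) *
                Fintype.card (Fin G → (K × Fin (16 * t) → Fin L))) +
              ((Fintype.card K) ^ 2 + 1) ^ (2 * t) *
                Fintype.card (Fin G → (K × Fin (16 * t) → Fin L)) :=
            Nat.add_le_add hE' hF'
          _ = _ := by rw [List.length_cons]; ring
      · intro u huv
        rcases huv with huv | huv
        · rcases List.mem_cons.1 huv with h | h
          · rw [h]
            exact hR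
          · exact APX_mono subset_union_left subset_union_left (hu u (Or.inl h))
        · exact APX_mono subset_union_left subset_union_left (hu u (Or.inr huv))
  obtain ⟨E, E', hE, hE', h⟩ := key
  exact ⟨E, E', hE, hE', h⟩

end Pool.Agent.PB
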