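import Pool.Agent.helper64.PB.SpecC

set_option autoImplicit false

namespace Pool.Agent.PB

theorem ETH_f3 : (![false, false, false] : Fin 3 → Bool) = fun _ => false := by
  decide

theorem ETH_t3 : (![true, true, true] : Fin 3 → Bool) = fun _ => true := by
  decide

theorem ETH_dual (hDUA : DUA_stmt) {G : Set Gate}
    (h : ∃ c : ℕ, ∀ n, 1 ≤ n → ∀ f : BF n, InCl (dualB G) f → ∀ s, Size std f s →
      Size (dualB G) f (c * (s + n))) :
    ∃ c : ℕ, ∀ n, 1 ≤ n → ∀ f : BF n, InCl G f → ∀ s, Size std f s → Size G f (c * (s + n)) := by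
  obtain ⟨-, -, -, h4, h5, -, -⟩ := hDUA
  obtain ⟨c, hc⟩ := h
  refine ⟨c, fun n hn f hf s hs => ?_⟩
  obtain ⟨t, ht⟩ := hf
  exact (h4 G n f _).1 (hc n hn (dual f) ⟨t, (h4 G n f t).2 ht⟩ s ((h5 n f s).2 hs))

theorem ETH (hCSE : CSE_stmt) (hEST : EST_stmt) (hEID : EID_stmt) (hET0 : ET0_stmt) (hEAL : EAL_stmt) (hESE : ESE_stmt) (hDUA : DUA_stmt) (hPRP : PRP_stmt) : ETH_stmt := by
  intro G hT hW
  rcases hCSE G hT hW with h | h | h | h | h | h | h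
  · exact hEST G h.1 h.2
  · exact ETH_dual hDUA (hEST (dualB G) h.1 h.2)
  · exact hESE G h.1 h.2
  · obtain ⟨hid, hA, hO, g, hg, h1, h2⟩ := h
    have hp0 : ∀ (n : ℕ) (f : BF n), InCl G f → f (fun _ => false) = false := fun n f hf =>
      (hPRP G n f hf).2.2.2.2.2.2.2.1 (fun g hg => (hid g hg).1)
    have hp1 : ∀ (n : ℕ) (f : BF n), InCl G f → f (fun _ => true) = true := fun n f hf =>
      (hPRP G n f hf).2.2.2.2.2.2.2.2 (fun g hg => (hid g hg).2)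
    obtain ⟨c, hc⟩ := hEID G g hA hO hg (by rw [ETH_f3]; exact hp0 3 g hg)
      (by rw [ETH_t3]; exact hp1 3 g hg) h1 h2
    exact ⟨c, fun n hn f hf s hs => hc n hn f (hp0 n f hf) (hp1 n f hf) s hs⟩
  · obtain ⟨h0, hO, q, hq, h1, h2, h3⟩ := h
    obtain ⟨c, hc⟩ := hET0 G q hO hq h1 h2 h3
    exact ⟨c, fun n hn f hf s hs => hc n hn f ((hPRP G n f hf).2.2.2.2.2.2.2.1 h0) s hs⟩
  · obtain ⟨h0, hO, q, hq, h1, h2, h3⟩ := h
    obtain ⟨c, hc⟩ := hET0 (dualB G) q hO hq h1 h2 h3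
    exact ETH_dual hDUA ⟨c, fun n hn f hf s hs =>
      hc n hn f ((hPRP (dualB G) n f hf).2.2.2.2.2.2.2.1 h0) s hs⟩
  · obtain ⟨c, hc⟩ := hEAL G h.1 h.2.1 h.2.2
    exact ⟨c, fun n hn f _ s hs => hc n hn f s hs⟩

end Pool.Agent.PB
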